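import Pool.Agent.Lib.MP_b23a2c_al.Colim

set_option autoImplicit false

namespace Pool.Agent.Results.MP_b23a2c_al.DegreewiseFinite

open CategoryTheory Pool.Agent.Lib.MP_b23a2c_al

universe u v

/-- Over any field `k`, every torsion-free indecomposable injective object `I` of the category of
all FI-modules (functors from FI to `k`-vector spaces) has finite-dimensional pieces `I_n`. -/
theorem result (k : Type u) [Field k] (I : FI ⥤ ModuleCat.{v} k) (hinj : Injective I)
    (hind : Indecomposable I)
    (htf : ∀ (m n : FI) (f : m ⟶ n), Function.Injective (I.map f).hom) (n : FI) :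
    FiniteDimensional k (I.obj n) :=
  finite_obj hinj hind htf n.size

end Pool.Agent.Results.MP_b23a2c_al.DegreewiseFinite
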